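import Pool.Agent.Helper24.UV.Asm
import Pool.Agent.Helper24.WS.Red
import Pool.Agent.Helper24.WS.Edge
import Pool.Agent.Helper36.UW.Res
import Pool.Agent.Helper7.UW.R3
import Pool.Agent.Helper7.UW.Close
import Pool.Agent.Helper60.UW.R
import Pool.Agent.Helper65.UW.R
import Pool.Agent.Helper25.UW.Bv
import Pool.Agent.Helper68.UW.M3
import Pool.Agent.Helper90.UW.Arith
import Pool.Agent.Helper64.UW.Fm
import Pool.Agent.Helper66.UW.Cell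
import Pool.Agent.Helper3.UW.MGY
import Pool.Agent.Helper17.UW.MLast
import Pool.Agent.Helper53.UW.Z6
import Pool.Agent.Helper87.UW.FarD
import Pool.Agent.Helper69.UW.NxDev
import Pool.Agent.Helper57.UW.Mmm
import Pool.Agent.Helper8.UW.T1a
import Pool.Agent.Helper8.UW.T1
import Pool.Agent.Helper26.UW.Pmom
import Pool.Agent.Helper21.UW.T3
import Pool.Agent.Helper8.UW.T4
import Pool.Agent.Helper94.UW.ToMeas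
import Pool.Agent.Helper82.UW.Few
import Pool.Agent.Helper80.UW.Many
import Pool.Agent.Helper88.UW.Q3

/-!
# UW: moderate deviations, assembly
-/

set_option autoImplicit false
open MeasureTheory Set Filter Topology
open Pool.Agent.Helper57.Zeta Pool.Agent.Helper57.LH Pool.Agent.Helper57.ED Pool.Agent.Helper54.LG
open Pool.Agent.Helper93.UG (zc IsOrd sp)
open Pool.Agent.Helper69.UG (pt NX XX NR NM WW near far)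
open Pool.Agent.Helper69.UV (ww HH)
open Pool.Agent.Helper69.UW (Adm ll vv K0 PR KR sw rp rr RR VV KK wt PP1 PP2 ma mb mm FF gg WP circ cen GY WS Mp Mm)

namespace Pool.Agent.Helper24.UW


variable {δ : ℝ}

/-! ### R: resonator -/

/-- R1 -/
theorem rr_supp {T c m v : ℝ} (hδ : 0 < δ) (hT : 1 ≤ T) (hm : 0 < m) {n : ℕ} (h : rr δ T c m v n ≠ 0) :
    1 ≤ n ∧ n ≤ NR T ∧ Squarefree n :=
    Pool.Agent.Helper36.UW.rr_supp hδ hT hm h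

/-- R1b -/
theorem rp_le (T c v : ℝ) (p : ℕ) : |sw T c p| ≤ 1 ∧ |rp T c v p| ≤ |v| :=
    Pool.Agent.Helper36.UW.rp_le T c v p

/-- R2 (at most `8m/δ` prime factors, each coefficient at most `√m`; `m ≤ c/c0`, `c log c ≤ log T/64`) -/
theorem rr_bd (hδ : 0 < δ) (hδ1 : δ ≤ 1 / 32) : ∃ c0 T0 : ℝ, ∀ T c m v : ℝ, T0 ≤ T → Adm c0 T c m → |v| = vv δ c m →
    ∀ n, |rr δ T c m v n| ≤ T ^ (1 / 192 : ℝ) ∧ 1 ≤ VV δ T c m v :=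
    Pool.Agent.Helper36.UW.rr_bd hδ hδ1

/-- R3 -/
theorem PR_facts (hδ : 0 < δ) (hδ1 : δ ≤ 1 / 32) : ∃ c0 T0 : ℝ, ∀ T c m : ℝ, T0 ≤ T → Adm c0 T c m →
    (∀ p ∈ PR δ T c m, p.Prime ∧ Real.log T ^ 4 < p ∧ Real.log T ^ 60 < p ∧ (p : ℝ) ≤ T ^ (1 / 1000 : ℝ) ∧
      64 * m * Real.log p ≤ δ * Real.log T ∧ 1 < ww T c p) ∧
    1 ≤ ∑ p ∈ PR δ T c m, (1 / p : ℝ) ∧ ∑ p ∈ PR δ T c m, (1 / p : ℝ) ≤ ll c m :=
    Pool.Agent.Helper7.UW.PR_facts hδ hδ1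

/-- R3' (Mertens, partial summation; `sin² = (1 - cos(2πw))/2`, `∫_1^∞ cos(2πw) dw/w` converges, `log (64/δ)` is small against
`δ ll c m`) -/
theorem PR_mass (hδ : 0 < δ) (hδ1 : δ ≤ 1 / 32) : ∃ c0 T0 : ℝ, ∀ T c m : ℝ, T0 ≤ T → Adm c0 T c m →
    (1 / 2 - δ) * ll c m ≤ ∑ p ∈ PR δ T c m, sw T c p ^ 2 / p ∧
    ∑ p ∈ PR δ T c m, sw T c p ^ 2 / p ≤ (1 / 2 + δ) * ll c m :=
    Pool.Agent.Helper7.UW.PR_mass hδ hδ1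

/-- R3'', from R3' -/
theorem KK_bd (hδ : 0 < δ) (hδ1 : δ ≤ 1 / 32) : ∃ c0 T0 : ℝ, ∀ T c m v : ℝ, T0 ≤ T → Adm c0 T c m → |v| = vv δ c m →
    (1 - 2 * δ) * ((1 + 20 * δ) ^ 2 * K0 c m) ≤ KK δ T c m v ∧
    KK δ T c m v ≤ (1 + 2 * δ) * ((1 + 20 * δ) ^ 2 * K0 c m) :=
    Pool.Agent.Helper7.UW.KK_bd hδ hδ1

/-- R4 (Rankin for the number of prime factors: `KR ≥ 256 m - 1` against `∑ rp²/p ≤ 15 m/ll`) -/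
theorem WP_bd (hδ : 0 < δ) (hδ1 : δ ≤ 1 / 32) : ∃ c0 T0 : ℝ, ∀ T c m v : ℝ, T0 ≤ T → Adm c0 T c m → |v| = vv δ c m →
    ∀ p ∈ PR δ T c m,
    (1 - δ) * rp T c v p ^ 2 * VV δ T c m v ≤ rp T c v p * WP δ T c m v p ∧
    |WP δ T c m v p| ≤ |rp T c v p| * VV δ T c m v :=
    Pool.Agent.Helper7.UW.WP_bd hδ hδ1

/-- R4' -/
theorem VV_exp (hδ : 0 < δ) (hδ1 : δ ≤ 1 / 32) : ∃ c0 T0 : ℝ, ∀ T c m v : ℝ, T0 ≤ T → Adm c0 T c m → |v| = vv δ c m →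
    Real.exp (KK δ T c m v) / 2 ≤ VV δ T c m v ∧ VV δ T c m v ≤ Real.exp (KK δ T c m v) :=
    Pool.Agent.Helper7.UW.VV_exp hδ hδ1

/-- R5 (`∑ 1/p ≤ ll`, `|v| ll ≤ 6 √m`, `ll ≤ log c ≤ √m`) -/
theorem prod_le_VV (hδ : 0 < δ) (hδ1 : δ ≤ 1 / 32) : ∃ C c0 T0 : ℝ, 0 < C ∧ ∀ T c m v : ℝ, T0 ≤ T → Adm c0 T c m →
    |v| = vv δ c m →
    ∏ p ∈ PR δ T c m, (1 + (2 + |rp T c v p|) ^ 2 / p + 2 * (2 + 2 * |rp T c v p|) ^ 2 / p ^ 2) ≤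
      C * Real.exp (C * √m) * VV δ T c m v :=
    Pool.Agent.Helper7.UW.prod_le_VV hδ hδ1

/-- R7: fourth moment, any centre -/
theorem m4 (hδ : 0 < δ) (hδ1 : δ ≤ 1 / 32) : ∃ A c0 T0 : ℝ, ∀ T c m v : ℝ, T0 ≤ T → Adm c0 T c m → |v| = vv δ c m →
    ∀ τ : ℝ, Integrable (fun t => PW (WW T) (t - τ) * ‖RR δ T c m v t‖ ^ 4) ∧
    ∫ t, PW (WW T) (t - τ) * ‖RR δ T c m v t‖ ^ 4 ≤ Real.exp (A * c) * VV δ T c m v ^ 2 :=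
    Pool.Agent.Helper60.UW.m4 hδ hδ1

/-- R8: mass -/
theorem wmass (hδ : 0 < δ) (hδ1 : δ ≤ 1 / 32) : ∃ c0 T0 : ℝ, ∀ T c m v : ℝ, T0 ≤ T → Adm c0 T c m → |v| = vv δ c m →
    ∀ τ : ℝ, Integrable (wt δ T c m v τ) ∧ |(∫ t, wt δ T c m v τ t) - VV δ T c m v| ≤ VV δ T c m v / T :=
    Pool.Agent.Helper60.UW.wmass hδ hδ1

/-- R9: mean of a cosine -/
theorem ecos (hδ : 0 < δ) (hδ1 : δ ≤ 1 / 32) : ∃ c0 T0 : ℝ, ∀ T c m v : ℝ, T0 ≤ T → Adm c0 T c m → |v| = vv δ c m →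
    ∀ τ u : ℝ, ∀ n : ℕ, IsPrimePow n → (n : ℝ) ≤ Real.exp (XX T m) →
    |(∫ t, wt δ T c m v τ t * Real.cos ((t + u) * Real.log n)) -
      (if n ∈ PR δ T c m then WP δ T c m v n / √n * Real.cos (u * Real.log n) else 0)| ≤ 1 / T :=
    Pool.Agent.Helper60.UW.ecos hδ hδ1

/-- R10: the mean of the prime sum, averaged over the window: the main term is
`(2/π) ∑_p (1 - log p/X)² sin(π w) WP(p)/p`, `log p ≤ δ X/64`, then R4, R3': `v ∫ ≥ (1-4δ)(ll/π) v² VV` and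
`v² ll/π = (1+20δ) √m |v|` -/
theorem eWS (hδ : 0 < δ) (hδ1 : δ ≤ 1 / 32) : ∃ c0 T0 : ℝ, ∀ T c m v : ℝ, T0 ≤ T → Adm c0 T c m → |v| = vv δ c m →
    ∀ τ : ℝ, (1 + 10 * δ) * √m * |v| * VV δ T c m v ≤ v * ∫ t, wt δ T c m v τ t * WS T c m t :=
    Pool.Agent.Helper65.UW.eWS hδ hδ1

/-- R11: second moment of the prime sum, all kernel scales -/
theorem vSS (hδ : 0 < δ) (hδ1 : δ ≤ 1 / 32) : ∃ C c0 T0 : ℝ, 0 < C ∧ ∀ T c m v : ℝ, T0 ≤ T → Adm c0 T c m →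
    |v| = vv δ c m → ∀ M τ u : ℝ, m ≤ M → M ≤ 2 * c →
    ∫ t, wt δ T c m v τ t * SS (XX T M) (t + u) ^ 2 ≤ C * M * VV δ T c m v :=
    Pool.Agent.Helper65.UW.vSS hδ hδ1

/-! ### M: weighted second moment of `F - 1` -/

/-- M2: Barban-Vehov at `1/2 + 1/log T` -/
theorem bv (hδ : 0 < δ) (hδ1 : δ ≤ 1 / 32) : ∃ C c0 T0 : ℝ, 0 < C ∧ ∀ T c m : ℝ, T0 ≤ T → Adm c0 T c m →
    ∀ S : Finset ℕ, (∀ n ∈ S, n ≠ 0) →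
    ∑ n ∈ S, (∑ d ∈ n.divisors, ma T (PR δ T c m) d) ^ 2 * (n : ℝ) ^ (-(1 + 2 / Real.log T)) ≤ C * Real.exp (C * √m) :=
    Pool.Agent.Helper25.UW.bv_of (fun h1 h2 => PR_facts h1 h2) hδ hδ1

/-- M3: any finite set `Q` of primes -/
theorem gg_gap {T : ℝ} {Q : Finset ℕ} (hQ : ∀ p ∈ Q, p.Prime) (hT : 1 < T) {n : ℕ} (hn : 1 < n)
    (hn2 : (n : ℝ) ≤ T ^ (1 / 32 : ℝ)) : gg T Q n = 0 :=
    Pool.Agent.Helper69.UW.gg_gap hQ hT hn hn2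

theorem gg_mul {T : ℝ} {Q : Finset ℕ} (hQ : ∀ p ∈ Q, p.Prime) {n₁ n₂ : ℕ} (h1 : n₁ ≠ 0) (h2 : n₂ ≠ 0)
    (hP1 : n₁.primeFactors ⊆ Q) (hP2 : ∀ p ∈ Q, ¬ p ∣ n₂) :
    gg T Q (n₁ * n₂) = (∑ d ∈ n₁.divisors, mb T Q d) * ∑ d ∈ n₂.divisors, ma T Q d :=
    Pool.Agent.Helper69.UW.gg_mul hQ h1 h2 hP1 hP2

theorem gb_le {T : ℝ} {Q : Finset ℕ} (n : ℕ) : |∑ d ∈ n.divisors, mb T Q d| ≤ 2 ^ n.primeFactors.card :=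
    Pool.Agent.Helper69.UW.gb_le n

/-- M4: arithmetic bound, from R1-R6, M2, M3 -/
theorem arith (hδ : 0 < δ) (hδ1 : δ ≤ 1 / 32) : ∃ C c0 T0 : ℝ, 0 < C ∧ ∀ T c m v : ℝ, T0 ≤ T → Adm c0 T c m →
    |v| = vv δ c m →
    ∀ σ, 1 / 2 + 1 / Real.log T ≤ σ → σ ≤ 3 / 4 → ∀ q : ℕ → ℝ, (∀ n, |q n| ≤ |rr δ T c m v n| * (n : ℝ) ^ (σ - 1 / 2)) →
    Summable (fun j : ℕ => ((∑ h ∈ j.divisors, gg T (PR δ T c m) h * q (j / h)) - q j) ^ 2 * (j : ℝ) ^ (-2 * σ)) ∧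
    ∑' j : ℕ, ((∑ h ∈ j.divisors, gg T (PR δ T c m) h * q (j / h)) - q j) ^ 2 * (j : ℝ) ^ (-2 * σ) ≤
      C * T ^ (-(σ - 1 / 2 - 1 / Real.log T) / 16) * Real.exp (C * √m) * VV δ T c m v :=
    Pool.Agent.Helper90.UW.arith hδ hδ1

/-- M5: the weighted second moment, from M1, M4 -/
theorem fm (hδ : 0 < δ) (hδ1 : δ ≤ 1 / 32) : ∃ C c0 T0 : ℝ, 0 < C ∧ ∀ T c m v : ℝ, T0 ≤ T → Adm c0 T c m →
    |v| = vv δ c m →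
    ∀ τ u y : ℝ, |τ| ≤ 2 * T → |u| ≤ 2 * T → 1 ≤ y → y ≤ Real.log T / 4 →
    Integrable (fun t => wt δ T c m v τ t * ‖FF T (PR δ T c m) (pt T y (t + u)) - 1‖ ^ 2) ∧
    ∫ t, wt δ T c m v τ t * ‖FF T (PR δ T c m) (pt T y (t + u)) - 1‖ ^ 2 ≤
      C * Real.exp (C * √m - y / 16) * VV δ T c m v :=
    Pool.Agent.Helper64.UW.fm_of (fun h1 h2 _ h3 => rr_supp hδ h1 h2 h3) (rr_bd hδ hδ1) (arith hδ hδ1)

/-! ### Z: zeros off the line -/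

/-- Z1: Jensen in one disc, any `Q` -/
theorem cell {T : ℝ} {Q : Finset ℕ} {y : ℝ} (hT : 3 ≤ T) (hy : 0 < y) (k : ℕ) (hk : 8 * 2 ^ k * y ≤ Real.log T / 4) (t : ℝ)
    (Z : Finset ZS)
    (hZ : ∀ ρ ∈ Z, y ≤ Real.log T * ((ρ : ℂ).re - 1 / 2) ∧ Real.log T * ((ρ : ℂ).re - 1 / 2) ≤ 2 * y ∧
      |(ρ : ℂ).im - t| ≤ y / Real.log T) (hc : cen T Q y k t ≤ 1 / 2) :
    ∑ ρ ∈ Z, mx ρ ≤ 15 * 2 ^ k * (circ T Q y k t + 2 * cen T Q y k t) :=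
    Pool.Agent.Helper66.UW.cell hT hy k hk t Z hZ hc

/-- Z3: the chain, from Z1, Z2, any `Q` -/
theorem chain : ∃ C : ℝ, 0 < C ∧ ∀ T : ℝ, 3 ≤ T → ∀ (Q : Finset ℕ) (y : ℝ), 0 < y → ∀ K : ℕ, 1 ≤ K →
    4 * 2 ^ K * y ≤ Real.log T / 4 → ∀ (t : ℝ) (Z : Finset ZS),
    (∀ ρ ∈ Z, y ≤ Real.log T * ((ρ : ℂ).re - 1 / 2) ∧ Real.log T * ((ρ : ℂ).re - 1 / 2) ≤ 2 * y ∧
      |(ρ : ℂ).im - t| ≤ y / Real.log T) →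
    ∑ ρ ∈ Z, mx ρ ≤ GY T Q y K t + C * Real.log (4 + |t|) * (2 * cen T Q y (K - 1) t) :=
    Pool.Agent.Helper66.UW.chain

/-- Z4: mean of the majorant, from M5 -/
theorem mGY (hδ : 0 < δ) (hδ1 : δ ≤ 1 / 32) : ∃ C c0 T0 : ℝ, 0 < C ∧ ∀ T c m v : ℝ, T0 ≤ T → Adm c0 T c m →
    |v| = vv δ c m →
    ∀ τ u y : ℝ, |τ| ≤ 2 * T → |u| ≤ T → 2 ≤ y → ∀ K : ℕ, 1 ≤ K → 4 * 2 ^ K * y ≤ Real.log T / 4 →
    Integrable (fun t => wt δ T c m v τ t * GY T (PR δ T c m) y K (t + u)) ∧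
    ∫ t, wt δ T c m v τ t * GY T (PR δ T c m) y K (t + u) ≤ C * Real.exp (C * √m - y / 64) * VV δ T c m v :=
    Pool.Agent.Helper3.UW.mGY_of hδ hδ1 (fm hδ hδ1) (wmass hδ hδ1)

/-- Z5: mean of the last term, from M5, R7 -/
theorem mLast (hδ : 0 < δ) (hδ1 : δ ≤ 1 / 32) : ∃ c0 T0 : ℝ, ∀ T c m v : ℝ, T0 ≤ T → Adm c0 T c m → |v| = vv δ c m →
    ∀ τ u y : ℝ, |τ| ≤ 2 * T → |u| ≤ T → 2 ≤ y → ∀ K : ℕ, 1 ≤ K → 4 * 2 ^ K * y ≤ Real.log T / 4 →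
    Real.log T / 4 < 8 * 2 ^ K * y →
    Integrable (fun t => wt δ T c m v τ t * (Real.log (4 + |t + u|) * cen T (PR δ T c m) y (K - 1) (t + u))) ∧
    ∫ t, wt δ T c m v τ t * (Real.log (4 + |t + u|) * cen T (PR δ T c m) y (K - 1) (t + u)) ≤
      T ^ (-(1 / 1000) : ℝ) * VV δ T c m v :=
    Pool.Agent.Helper17.UW.mLast_of (fm hδ hδ1) (m4 hδ hδ1)

open Classical in
/-- Z6: zeros with `|β - 1/2| ≥ 1/64`, from `deep`, R7, Z2; all kernel scales -/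
theorem mDeep (hδ : 0 < δ) (hδ1 : δ ≤ 1 / 32) : ∃ c0 T0 : ℝ, ∀ T c m v : ℝ, T0 ≤ T → Adm c0 T c m → |v| = vv δ c m →
    ∀ M τ u : ℝ, m ≤ M → M ≤ 2 * c → |τ| ≤ 2 * T → |u| ≤ T →
    Integrable (fun t => wt δ T c m v τ t * ∑' ρ : ZS, mx ρ * (if |(ρ : ℂ).re - 1 / 2| < 1 / 64 then 0 else
      1 / (1 + zb (XX T M) (t + u) ρ ^ 2))) ∧
    ∫ t, wt δ T c m v τ t * ∑' ρ : ZS, mx ρ * (if |(ρ : ℂ).re - 1 / 2| < 1 / 64 then 0 else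
      1 / (1 + zb (XX T M) (t + u) ρ ^ 2)) ≤ T ^ (-(1 / 2000) : ℝ) * VV δ T c m v :=
    Pool.Agent.Helper53.UW.mDeep hδ hδ1

/-- Z8: from Z3-Z7; all kernel scales (`√m ≥ √c0 log c`, `M ≤ 2c`) -/
theorem far_mean (hδ : 0 < δ) (hδ1 : δ ≤ 1 / 32) : ∃ C1 c0 T0 : ℝ, 1 ≤ C1 ∧ ∀ T c m v : ℝ, T0 ≤ T → Adm c0 T c m →
    |v| = vv δ c m →
    ∀ M τ u : ℝ, m ≤ M → M ≤ 2 * c → |τ| ≤ 2 * T → |u| ≤ T / 4 →
    Integrable (fun t => wt δ T c m v τ t * far T M (C1 * √m) (t + u)) ∧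
    ∫ t, wt δ T c m v τ t * far T M (C1 * √m) (t + u) ≤ VV δ T c m v :=
    Pool.Agent.Helper87.UW.far_mean_of chain (mGY hδ hδ1) (mLast hδ hδ1) (mDeep hδ hδ1) Pool.Agent.Helper64.UG.tail
    (rr_bd hδ hδ1)

/-! ### K: kernel, explicit formula -/

/-- K3e: the loss over a window sits at its two ends (`C` absolute) -/
theorem edge_pt : ∃ C : ℝ, 0 < C ∧ ∀ T M Y h t : ℝ, 3 ≤ T → 0 < M → M ≤ Real.log T → 0 < Y → Y ≤ M → 0 < h →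
    |XX T M / (2 * Real.pi) * ∫ w in (-h)..h, (NX (XX T M) (t + w) - (MM (XX T M) (t + w) - SS (XX T M) (t + w)))| ≤
      C * ((Y / M) ^ 2 * (near T M Y (t + h) + near T M Y (t - h)) + (far T M Y (t + h) + far T M Y (t - h))) :=
    Pool.Agent.Helper69.UW.edge_pt

/-- K5: main term, all kernel scales, with the error `M/log T` (`MM_main` has the error `C/X`) -/
theorem mMM (hδ : 0 < δ) (hδ1 : δ ≤ 1 / 32) : ∃ C c0 T0 : ℝ, 0 < C ∧ ∀ T c m v : ℝ, T0 ≤ T → Adm c0 T c m →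
    |v| = vv δ c m →
    ∀ M τ u : ℝ, m ≤ M → M ≤ 2 * c → T ≤ τ → τ ≤ 2 * T → |u| ≤ √T →
    Integrable (fun t => wt δ T c m v τ t * |MM (XX T M) (t + u) - M|) ∧
    ∫ t, wt δ T c m v τ t * |MM (XX T M) (t + u) - M| ≤ C * (M / Real.log T) * VV δ T c m v :=
    Pool.Agent.Helper57.UW.mMM_of (rr_bd hδ hδ1) (m4 hδ hδ1) (wmass hδ hδ1)

/-- K6: from K3-K5, Z8, R11 -/
theorem nx_dev (hδ : 0 < δ) (hδ1 : δ ≤ 1 / 32) : ∃ C c0 T0 : ℝ, 0 < C ∧ ∀ T c m v : ℝ, T0 ≤ T → Adm c0 T c m →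
    |v| = vv δ c m →
    ∀ M τ u : ℝ, m ≤ M → M ≤ 2 * c → T ≤ τ → τ ≤ 2 * T → |u| ≤ √T →
    Integrable (fun t => wt δ T c m v τ t * |NX (XX T M) (t + u) - M + SS (XX T M) (t + u)|) ∧
    ∫ t, wt δ T c m v τ t * |NX (XX T M) (t + u) - M + SS (XX T M) (t + u)| ≤ C * VV δ T c m v :=
    Pool.Agent.Helper69.UW.nx_dev_of (far_mean hδ hδ1) (mMM hδ hδ1) (vSS hδ hδ1) (wmass hδ hδ1) (rr_bd hδ hδ1)

/-- K6e: the count averaged over the window, from K3e, K4, K5, Z8, R11 -/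
theorem wavg (hδ : 0 < δ) (hδ1 : δ ≤ 1 / 32) : ∃ C c0 T0 : ℝ, 0 < C ∧ ∀ T c m v : ℝ, T0 ≤ T → Adm c0 T c m →
    |v| = vv δ c m → ∀ τ : ℝ, T ≤ τ → τ ≤ 2 * T →
    Integrable (fun t => wt δ T c m v τ t *
      |XX T m / (2 * Real.pi) * (∫ w in (-(HH T c))..(HH T c), NX (XX T m) (t + w)) - c + WS T c m t|) ∧
    ∫ t, wt δ T c m v τ t *
      |XX T m / (2 * Real.pi) * (∫ w in (-(HH T c))..(HH T c), NX (XX T m) (t + w)) - c + WS T c m t| ≤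
        C * VV δ T c m v :=
    Pool.Agent.Helper69.UW.wavg_of (far_mean hδ hδ1) (mMM hδ hδ1) (vSS hδ hδ1) (wmass hδ hδ1) (rr_bd hδ hδ1)

/-! ### T: the exact exponent -/

/-- T1a: elementary symmetric sums (Cauchy on the unit circle; `|1 + z| ≤ exp (Re z - Re z²/2 + |z|³)`) -/
theorem esum {Q : Finset ℕ} (x : ℕ → ℂ) (hx : ∀ p ∈ Q, ‖x p‖ ≤ 1 / 2) (K : ℕ) :
    ‖∑ S ∈ Q.powerset with S.card ≤ K, ∏ p ∈ S, x p‖ ≤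
      (K + 1) * Real.exp (‖∑ p ∈ Q, x p‖ + ‖∑ p ∈ Q, x p ^ 2‖ + ∑ p ∈ Q, ‖x p‖ ^ 3) :=
    Pool.Agent.Helper8.UW.esum x hx K

/-- T1, from T1a, R1, R3 (`∑ |rp|³ p^(-3/2) ≤ 1`) -/
theorem RR_pt (hδ : 0 < δ) (hδ1 : δ ≤ 1 / 32) : ∃ c0 T0 : ℝ, ∀ T c m v : ℝ, T0 ≤ T → Adm c0 T c m → |v| = vv δ c m →
    ∀ t : ℝ, ‖RR δ T c m v t‖ ≤ (KR δ m + 1) * Real.exp (‖PP1 δ T c m v t‖ + ‖PP2 δ T c m v t‖ + 1) :=
    Pool.Agent.Helper8.UW.RR_pt_of hδ hδ1 (fun _ _ _ _ hT hm _ h => rr_supp hδ hT hm h) (PR_facts hδ hδ1)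

/-- T2: moments of the prime sum under the weight (all coefficients of `R P^k` at `n` have the sign of
`∏ rp^(a_p)`; they are at most `k!/s^k` times the coefficient of `∏ (1 + |rp| x) exp(s |rp| x)`; `VV_exp`; `C` may depend on `δ`) -/
theorem pmom (hδ : 0 < δ) (hδ1 : δ ≤ 1 / 32) : ∃ C c0 T0 : ℝ, 0 < C ∧ ∀ T c m v : ℝ, T0 ≤ T → Adm c0 T c m →
    |v| = vv δ c m → ∀ (s τ : ℝ) (k : ℕ), 0 < s → s ≤ 1 → (k : ℝ) ≤ 4 * m →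
    Integrable (fun t => wt δ T c m v τ t * ‖PP1 δ T c m v t‖ ^ (2 * k)) ∧
    ∫ t, wt δ T c m v τ t * ‖PP1 δ T c m v t‖ ^ (2 * k) ≤
      C * (k.factorial / s ^ k) ^ 2 * Real.exp ((2 * s + s ^ 2) * KK δ T c m v) * VV δ T c m v :=
    Pool.Agent.Helper26.UW.pmom hδ hδ1

/-- T3 (`n = p² n'`, `n'` squarefree: `p` is unique; `∑ rp⁴/p² ≤ 2 v⁴/(log T)^60`) -/
theorem p2mom (hδ : 0 < δ) (hδ1 : δ ≤ 1 / 32) : ∃ c0 T0 : ℝ, ∀ T c m v : ℝ, T0 ≤ T → Adm c0 T c m → |v| = vv δ c m →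
    ∀ τ : ℝ, Integrable (fun t => wt δ T c m v τ t * ‖PP2 δ T c m v t‖ ^ 2) ∧
    ∫ t, wt δ T c m v τ t * ‖PP2 δ T c m v t‖ ^ 2 ≤ VV δ T c m v / c ^ 4 :=
    Pool.Agent.Helper21.UW.p2mom_of hδ hδ1 (rr_bd hδ hδ1) (PR_facts hδ hδ1)

/-- T4: from T1-T3, KK_bd, VV_exp: `s = δ`, `D = (1+20δ)² K0`, `Λ = (1+δ)(1+2δ) D`, `k = ⌊δ Λ⌋`; off `‖PP1‖ > Λ` and
`‖PP2‖ > 1` one has `‖RR‖² ≤ (KR+1)² e⁴ e^(2Λ)`, and `2Λ - (1-2δ) D ≤ (1+77δ) K0`; `K0 ≥ 4 c0 log c` -/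
theorem rtail (hδ : 0 < δ) (hδ1 : δ ≤ 1 / 32) : ∃ c0 T0 : ℝ, ∀ T c m v : ℝ, T0 ≤ T → Adm c0 T c m → |v| = vv δ c m →
    ∀ τ : ℝ, ∫ t in {t : ℝ | Real.exp ((1 + 100 * δ) * K0 c m) * VV δ T c m v < ‖RR δ T c m v t‖ ^ 2}, wt δ T c m v τ t ≤
      VV δ T c m v / c ^ 2 :=
    Pool.Agent.Helper8.UW.rtail_of hδ hδ1 (RR_pt hδ hδ1) (pmom hδ hδ1) (p2mom hδ hδ1) (KK_bd hδ hδ1) (VV_exp hδ hδ1)

/-! ### Q: probabilities (`XX T m * HH T c = π c/m`) -/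

/-- Q0, from T4 (instead of R7 and Cauchy-Schwarz) -/
theorem to_meas (hδ : 0 < δ) (hδ1 : δ ≤ 1 / 32) : ∃ c0 T0 : ℝ, ∀ T c m v : ℝ, T0 ≤ T → Adm c0 T c m → |v| = vv δ c m →
    ∀ G : Set ℝ, MeasurableSet G →
    (∀ τ, 5 / 4 * T ≤ τ → τ ≤ 7 / 4 * T → ∃ s : ℝ, |s| ≤ √T ∧
      VV δ T c m v / c ≤ ∫ t in {t : ℝ | t + s ∈ G}, wt δ T c m v τ t) →
    ENNReal.ofReal (Real.exp (-((1 + 110 * δ) * K0 c m)) * T) ≤ volume (G ∩ Icc T (2 * T)) :=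
    Pool.Agent.Helper94.UW.to_meas_of hδ hδ1 (rtail hδ hδ1)

/-- Q1: `v > 0`, few zeros in a window, and an ordinate not too far to its left (window average at the scale `m` from `wavg`,
eWS; the ordinate from two_scale at the scales `c`, `2c` from `nx_dev`, `vSS`) -/
theorem few (hδ : 0 < δ) (hδ1 : δ ≤ 1 / 32) : ∃ c0 T0 : ℝ, ∀ T c m v : ℝ, T0 ≤ T → Adm c0 T c m → |v| = vv δ c m → 0 < v →
    ∀ τ, T ≤ τ → τ ≤ 2 * T → ∃ s : ℝ, |s| ≤ √T ∧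
      VV δ T c m v / c ≤ ∫ t in {t : ℝ | t + s ∈
        {t : ℝ | (zc (Ico (t - HH T c) (t + HH T c)) : ℝ) ≤ c - √m ∧
          ∃ ρ : ZS, t - HH T c - 16 / XX T c ≤ (ρ : ℂ).im ∧ (ρ : ℂ).im < t - HH T c}}, wt δ T c m v τ t :=
    Pool.Agent.Helper82.UW.few_of hδ hδ1 (rr_bd hδ hδ1) (wmass hδ hδ1) (eWS hδ hδ1) (vSS hδ hδ1)
    (nx_dev hδ hδ1) (wavg hδ hδ1) (fun hX hH t => Pool.Agent.Helper24.UV.window hX hH t)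

/-- Q2: `v < 0`, many zeros in a window (majorant of the count: `UG.window_le_gen` at the scale `c`, `XX T c * HH T c = π`) -/
theorem many (hδ : 0 < δ) (hδ1 : δ ≤ 1 / 32) : ∃ c0 T0 : ℝ, ∀ T c m v : ℝ, T0 ≤ T → Adm c0 T c m → |v| = vv δ c m → v < 0 →
    ∀ τ, T ≤ τ → τ ≤ 2 * T → ∃ s : ℝ, |s| ≤ √T ∧
      VV δ T c m v / c ≤ ∫ t in {t : ℝ | t + s ∈
        {t : ℝ | c + √m ≤ (zc (Ico (t - HH T c) (t + HH T c)) : ℝ)}}, wt δ T c m v τ t :=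
    Pool.Agent.Helper80.UW.many_of hδ hδ1 (rr_bd hδ hδ1) (wmass hδ hδ1) (eWS hδ hδ1) (vSS hδ hδ1)
    (nx_dev hδ hδ1) (wavg hδ hδ1)

/-- Q3: the two measure statements, from Q0, Q1, Q2 (`δ = min (1/32) (ε/600)`, `m = V²`; shift by `HH`; `2 HH = c sp T`) -/
theorem mp : Mp :=
    Pool.Agent.Helper88.UW.mp_of (fun _ h1 h2 => to_meas h1 h2) (fun _ h1 h2 => many h1 h2) Pool.Agent.Helper24.UG.zc_meas

theorem mminus : Mm :=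
    Pool.Agent.Helper88.UW.mm_of (fun _ h1 h2 => to_meas h1 h2) (fun _ h1 h2 => few h1 h2) Pool.Agent.Helper24.UG.zc_meas

/-- moderate deviations -/
theorem finalW : Pool.Agent.Helper24.WS.FinalW :=
  Pool.Agent.Helper24.WS.finalW_of_M (Pool.Agent.Helper24.WS.mpW_of mp) (Pool.Agent.Helper24.WS.mmW_of mminus)

/-- Theorems U, V and moderate deviations -/
theorem final3 : Pool.Agent.Helper24.WS.Final3 :=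
  Pool.Agent.Helper24.WS.final3_of Pool.Agent.Helper24.UV.final2 finalW

end Pool.Agent.Helper24.UW
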